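import Pool.Agent.W811.LW.Stm2

/-! LWB-WGTB: the weight function, slowly growing density (adapted from W513.LW.Wgt). -/

set_option autoImplicit false

namespace Pool.Agent.W854.LW

open Finset Pool.Agent.W811.LW

theorem inner (n A : ℕ) :
    ∑ j ∈ range (n + 1), (if n + j ≤ A then (1 / 2 : ℝ) ^ (A - (n + j)) else 0) ≤ 2 := by
  rw [← Finset.sum_filter]
  have hinj : Set.InjOn (fun j => A - (n + j)) ((range (n + 1)).filter (fun j => n + j ≤ A) : Set ℕ) := by
    intro j hj j' hj' h
    have h1 := (Finset.mem_filter.mp hj).2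
    have h2 := (Finset.mem_filter.mp hj').2
    simp only at h
    omega
  have h1 : ∑ j ∈ (range (n + 1)).filter (fun j => n + j ≤ A), (1 / 2 : ℝ) ^ (A - (n + j)) =
      ∑ m ∈ ((range (n + 1)).filter (fun j => n + j ≤ A)).image (fun j => A - (n + j)), (1 / 2 : ℝ) ^ m :=
    (Finset.sum_image hinj).symm
  rw [h1]
  have h2 : ((range (n + 1)).filter (fun j => n + j ≤ A)).image (fun j => A - (n + j)) ⊆ range (A + 1) := by
    intro m hm
    obtain ⟨j, _, rfl⟩ := Finset.mem_image.mp hm
    rw [Finset.mem_range]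
    omega
  refine (Finset.sum_le_sum_of_subset_of_nonneg h2 (fun m _ _ => by positivity)).trans ?_
  exact sum_geometric_two_le _

theorem wgtb : WGTB := by
  classical
  intro L κ hL _ hκ1 hC
  have hex : ∀ l, ∃ k, l ≤ L k := fun l => ⟨l, hL.le_apply⟩
  let f : ℕ → ℕ := fun l => Nat.find (hex l)
  have hf1 : ∀ l, l ≤ L (f l) := fun l => Nat.find_spec (hex l)
  have hf2 : ∀ l k, l ≤ L k → f l ≤ k := fun l k h => Nat.find_min' (hex l) h
  have hmono : ∀ l l', l ≤ l' → f l ≤ f l' := fun l l' h => hf2 l _ (h.trans (hf1 l'))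
  refine ⟨fun l => (1 / 2 : ℝ) ^ (L (f l) - l), fun l => by positivity, ?_, ?_, ?_⟩
  · intro l
    have h1 : L (f l) ≤ L (f (l + 1)) := hL.monotone (hmono l (l + 1) (Nat.le_succ l))
    have h2 : (L (f l) - l) ≤ (L (f (l + 1)) - (l + 1)) + 1 := by omega
    have h3 : (1 / 2 : ℝ) ^ ((L (f (l + 1)) - (l + 1)) + 1) ≤ (1 / 2 : ℝ) ^ (L (f l) - l) :=
      pow_le_pow_of_le_one (by norm_num) (by norm_num) h2
    rw [pow_succ] at h3
    linarith
  · intro k
    have h1 : f (L k) ≤ k := hf2 _ _ le_rfl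
    have h2 : L (f (L k)) ≤ L k := hL.monotone h1
    have h3 := hf1 (L k)
    have h4 : L (f (L k)) - L k = 0 := by omega
    show (1 : ℝ) ≤ (1 / 2 : ℝ) ^ (L (f (L k)) - L k)
    rw [h4, pow_zero]
  · intro n
    have hstep : ∀ j ∈ range (n + 1), (1 / 2 : ℝ) ^ (L (f (n + j)) - (n + j)) ≤
        ∑ i ∈ Ico (f n) (f (2 * n) + 1),
          (if n + j ≤ L i then (1 / 2 : ℝ) ^ (L i - (n + j)) else 0) := by
      intro j hj
      have hj' : j ≤ n := Nat.lt_succ_iff.mp (Finset.mem_range.mp hj)
      have h1 : f n ≤ f (n + j) := hmono _ _ (Nat.le_add_right _ _)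
      have h2 : f (n + j) ≤ f (2 * n) := hmono _ _ (by omega)
      have hi : f (n + j) ∈ Ico (f n) (f (2 * n) + 1) := by
        rw [Finset.mem_Ico]
        omega
      have h6 := Finset.single_le_sum (f := fun i => (if n + j ≤ L i then
        (1 / 2 : ℝ) ^ (L i - (n + j)) else 0)) (fun i _ => by
          show (0 : ℝ) ≤ if n + j ≤ L i then (1 / 2 : ℝ) ^ (L i - (n + j)) else 0
          split_ifs
          · positivity
          · exact le_rfl) hi
      simp only [if_pos (hf1 (n + j))] at h6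
      exact h6
    refine (Finset.sum_le_sum hstep).trans ?_
    rw [Finset.sum_comm]
    refine (Finset.sum_le_sum (fun i _ => inner n (L i))).trans ?_
    have hcard : (((Ico (f n) (f (2 * n))).card : ℕ) : ℝ) ≤ κ n := by
      apply hC
      intro k hk
      rw [Finset.mem_Ico] at hk
      refine ⟨(hf1 n).trans (hL.monotone hk.1), ?_⟩
      by_contra hlt
      have := hf2 (2 * n) k (by omega)
      omega
    have hle : f n ≤ f (2 * n) := hmono _ _ (by omega)
    rw [Nat.card_Ico, Nat.cast_sub hle] at hcard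
    rw [Finset.sum_const, Nat.card_Ico, nsmul_eq_mul, Nat.cast_sub (by omega)]
    push_cast
    have := hκ1 n
    linarith

end Pool.Agent.W854.LW
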